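import Pool.Agent.Run7.h161.CG.Sec

/-!
# Contracting recursions: elements which act trivially die
-/

set_option autoImplicit false

namespace Run7.h161.CG

open Pool.Agent.Y462.SS

variable {X Γ : Type} [Group Γ] {ψ : Γ →* Wr X Γ}

theorem Triv.sect {γ : Γ} (h : Triv ψ γ) (v : List X) : Triv ψ (sect ψ γ v) := by
  intro w
  have h1 := h (v ++ w)
  rw [act_append, h v] at h1
  exact List.append_cancel_left h1

theorem triv_iff_tau {γ : Γ} : Triv ψ γ ↔ tau ψ γ = 1 := by
  constructor
  · intro h
    apply Subtype.ext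
    apply Equiv.ext
    exact h
  · intro h w
    have h1 := congrArg (fun g : T X => g.1 w) h
    exact h1

theorem triv_of_dies {γ : Γ} (h : Dies ψ γ) : Triv ψ γ := triv_iff_tau.2 (tau_of_dies ψ h)

theorem Triv.root {γ : Γ} (h : Triv ψ γ) : (ψ γ).p = 1 := by
  apply Equiv.ext
  intro x
  have h1 := h [x]
  rw [act_cons] at h1
  exact (List.cons.inj h1).1

theorem Triv.sec {γ : Γ} (h : Triv ψ γ) (x : X) : Triv ψ ((ψ γ).s x) := by
  have h1 := h.sect [x]
  rwa [sect_cons, sect_nil] at h1

theorem triv_one : Triv ψ (1 : Γ) := fun w => act_one ψ w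

theorem Triv.mul {γ δ : Γ} (h : Triv ψ γ) (h' : Triv ψ δ) : Triv ψ (γ * δ) := by
  intro w
  rw [act_mul, h', h]

theorem Triv.pow {γ : Γ} (h : Triv ψ γ) (j : ℕ) : Triv ψ (γ ^ j) := by
  induction j with
  | zero => rw [pow_zero]; exact triv_one
  | succ j ih => rw [pow_succ]; exact ih.mul h

/-- an element which acts trivially and has a dying section along each word of length `n` dies -/
theorem dies_of_prefix (n : ℕ) : ∀ γ : Γ, Triv ψ γ →
    (∀ v : List X, v.length = n → ∃ u, u <+: v ∧ Dies ψ (sect ψ γ u)) → Dies ψ γ := by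
  induction n with
  | zero =>
    intro γ _ h
    obtain ⟨u, hu, h1⟩ := h [] rfl
    rw [List.prefix_nil.1 hu, sect_nil] at h1
    exact h1
  | succ n ih =>
    intro γ hγ h
    by_cases hd : Dies ψ γ
    · exact hd
    · refine Dies.step γ hγ.root fun x => ih _ (hγ.sec x) fun v hv => ?_
      obtain ⟨u, hu, h1⟩ := h (x :: v) (by rw [List.length_cons, hv])
      cases u with
      | nil =>
        rw [sect_nil] at h1
        exact absurd h1 hd
      | cons y u =>
        rw [List.cons_prefix_cons] at hu
        obtain ⟨rfl, hu⟩ := hu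
        rw [sect_cons] at h1
        exact ⟨u, hu, h1⟩

theorem sect_pow_of_fixed {c : Γ} (hc : Triv ψ c) {w : List X} (hw : sect ψ c w = c) (j : ℕ) :
    sect ψ (c ^ j) w = c ^ j := by
  induction j with
  | zero => rw [pow_zero, sect_one]
  | succ j ih => rw [pow_succ, sect_mul, hc w, ih, hw]

theorem sect_iter {c : Γ} {w : List X} (hw : sect ψ c w = c) (i : ℕ) :
    sect ψ c (List.replicate i w).flatten = c := by
  induction i with
  | zero => rw [List.replicate_zero, List.flatten_nil, sect_nil]
  | succ i ih => rw [List.replicate_succ, List.flatten_cons, sect_append, hw, ih]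

/-- an element which acts trivially and is its own section has finite order -/
theorem finOrder_of_fixed {M : Set Γ} {k : ℕ} (hM : Nuc ψ M k) {c : Γ} (hc : Triv ψ c)
    {w : List X} (hw0 : w ≠ []) (hw : sect ψ c w = c) : IsOfFinOrder c := by
  have h1 : ∀ j : ℕ, c ^ j ∈ M := by
    intro j
    obtain ⟨n, hn⟩ := hM.all (c ^ j)
    have h2 := hn (List.replicate n w).flatten (by
      rw [List.length_flatten, List.map_replicate, List.sum_replicate, smul_eq_mul]
      have : 0 < w.length := List.length_pos_iff.2 hw0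
      exact Nat.le_mul_of_pos_right n this)
    rwa [sect_iter (sect_pow_of_fixed hc hw j)] at h2
  by_contra h2
  have h3 : Function.Injective fun j : ℕ => c ^ j := injective_pow_iff_not_isOfFinOrder.2 h2
  exact Set.infinite_of_injective_forall_mem h3 h1 hM.fin

/-- **in a contracting recursion the elements which act trivially die**, if those of finite order do -/
theorem dies_of_triv {M : Set Γ} {k : ℕ} (hM : Nuc ψ M k)
    (ht : ∀ c : Γ, Triv ψ c → IsOfFinOrder c → Dies ψ c) (γ : Γ) (hγ : Triv ψ γ) : Dies ψ γ := by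
  obtain ⟨n, hn⟩ := hM.all γ
  refine dies_of_prefix (n + M.ncard) γ hγ fun v hv => ?_
  have h1 : ∃ i ∈ Set.Iic M.ncard, ∃ i' ∈ Set.Iic M.ncard, i ≠ i' ∧
      sect ψ γ (v.take (n + i)) = sect ψ γ (v.take (n + i')) := by
    have hc : M.ncard < (Set.Iic M.ncard).ncard := by
      have h5 : (Set.Iic M.ncard).ncard = M.ncard + 1 := by
        generalize M.ncard = m
        rw [Set.ncard_eq_toFinset_card', Set.toFinset_Iic, Nat.card_Iic]
      rw [h5]
      exact Nat.lt_succ_self _
    have hm : ∀ i ∈ Set.Iic M.ncard, (fun i => sect ψ γ (v.take (n + i))) i ∈ M := by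
      intro i hi
      apply hn
      rw [List.length_take, hv]
      have : i ≤ M.ncard := hi
      omega
    exact Set.exists_ne_map_eq_of_ncard_lt_of_maps_to hc hm hM.fin
  obtain ⟨i, hi, i', hi', hne, h2⟩ := h1
  wlog hlt : i < i' generalizing i i'
  · exact this i' hi' i hi hne.symm h2.symm (lt_of_le_of_ne (not_lt.1 hlt) hne.symm)
  have hi'' : i' ≤ M.ncard := hi'
  have e : v.take (n + i') = v.take (n + i) ++ (v.take (n + i')).drop (n + i) := by
    have h3 := (List.take_append_drop (n + i) (v.take (n + i'))).symm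
    rw [List.take_take, min_eq_left (by omega)] at h3
    exact h3
  refine ⟨v.take (n + i), List.take_prefix _ _, ?_⟩
  apply ht _ (hγ.sect _)
  apply finOrder_of_fixed hM (hγ.sect _) (w := (v.take (n + i')).drop (n + i))
  · intro h3
    have h4 := congrArg List.length h3
    rw [List.length_drop, List.length_take, hv, List.length_nil] at h4
    omega
  · rw [← sect_append, ← e]
    exact h2.symm

end Run7.h161.CG
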