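import Pool.Agent.Run7.h161.CG.SlowC
import Pool.Agent.Run7.h161.CG.Die
import Pool.Agent.H149R3.FreeOne

/-!
# Contracting groups contain no nonabelian free groups
-/

set_option autoImplicit false

namespace Run7.h161.CG

open Pool.Agent.Y462.SS
open scoped Pointwise

/-- the positive words in the free group -/
theorem mk_pos_injective :
    Function.Injective fun L : List (Fin 2) => FreeGroup.mk (L.map fun i => (i, true)) := by
  have hred : ∀ L : List (Fin 2), FreeGroup.IsReduced (L.map fun i => (i, true)) := by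
    intro L
    unfold FreeGroup.IsReduced
    rw [List.isChain_map]
    induction L with
    | nil => exact List.isChain_nil
    | cons a L ih =>
      cases L with
      | nil => exact List.isChain_singleton _
      | cons b L => exact List.isChain_cons_cons.2 ⟨fun _ => rfl, ih⟩
  intro L L' h
  have h1 := congrArg FreeGroup.toWord h
  simp only [FreeGroup.toWord_mk] at h1
  rw [(hred L).reduce_eq, (hred L').reduce_eq] at h1
  have hinj : Function.Injective (fun i : Fin 2 => (i, true)) := fun i j h => congrArg Prod.fst h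
  exact List.map_injective_iff.2 hinj h1

theorem mk_pos_mem (S : Set (FreeGroup (Fin 2))) (hS : ∀ i, FreeGroup.of i ∈ S)
    (L : List (Fin 2)) : FreeGroup.mk (L.map fun i => (i, true)) ∈ S ^ L.length := by
  induction L with
  | nil => exact Set.mem_one.2 rfl
  | cons a L ih =>
    rw [List.length_cons, pow_succ', List.map_cons]
    have h1 : FreeGroup.mk ((a, true) :: L.map fun i => (i, true)) =
        FreeGroup.of a * FreeGroup.mk (L.map fun i => (i, true)) := rfl
    rw [h1]
    exact Set.mul_mem_mul (hS a) ih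

section

variable {X G : Type} [Finite X] [Group G] {ψ : G →* Wr X G} (hψ : Contracting ψ)
  (hf : ∀ g : G, Triv ψ g → g = 1) (ι : FreeGroup (Fin 2) →* G) (hι : Function.Injective ι)

include hψ hf hι

/-- at some level all local kernels are nontrivial -/
theorem exists_level : ∃ ℓ : ℕ, ∀ v : List X, v.length = ℓ →
    ∃ w : FreeGroup (Fin 2), w ≠ 1 ∧ act ψ (ι w) v = v ∧ sect ψ (ι w) v = 1 := by
  classical
  obtain ⟨M, k₀, hM⟩ := exists_nuc hψ
  by_contra hcon
  push Not at hcon
  let S : Set G := {ι (FreeGroup.of 0), ι (FreeGroup.of 1)}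
  have hS : S.Finite := Set.toFinite _
  obtain ⟨n, hn⟩ := hM.prods' hS
  obtain ⟨j, -, hj'⟩ := exists_big ((Nat.card X + 1) ^ n * M.ncard) ((Nat.card X + 1) ^ k₀) 2
    one_lt_two 0
  obtain ⟨v, hv, h1⟩ := hcon (n + j * k₀)
  let W : Set (List X) := {a | a.length ≤ n + j * k₀}
  let D : Set (List (Fin 2)) := {L | L.length = 2 ^ j}
  let e : List (Fin 2) → FreeGroup (Fin 2) := fun L => FreeGroup.mk (L.map fun i => (i, true))
  let F : List (Fin 2) → List X × G := fun L => (act ψ (ι (e L)) v, sect ψ (ι (e L)) v)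
  have hmaps : ∀ L ∈ D, F L ∈ W ×ˢ M := by
    intro L hL
    refine ⟨?_, ?_⟩
    · change (act ψ (ι (e L)) v).length ≤ _
      rw [act_length, hv]
    · apply hn j _ _ v hv.ge
      apply prods_of_mem
      have h2 := mk_pos_mem ({FreeGroup.of 0, FreeGroup.of 1}) (fun i => by fin_cases i <;> simp) L
      have h3 : ι (e L) ∈ ι '' (({FreeGroup.of 0, FreeGroup.of 1} : Set (FreeGroup (Fin 2))) ^
          L.length) := ⟨_, h2, rfl⟩
      rw [Set.image_pow] at h3
      have h4 : ι '' ({FreeGroup.of 0, FreeGroup.of 1} : Set (FreeGroup (Fin 2))) = S := by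
        rw [Set.image_pair]
      rw [h4] at h3
      have hL' : L.length = 2 ^ j := hL
      rwa [hL'] at h3
  have hinj : Set.InjOn F D := by
    intro L _ L' _ h2
    apply mk_pos_injective
    by_contra h3
    have ha : act ψ (ι (e L)) v = act ψ (ι (e L')) v := congrArg Prod.fst h2
    have hs : sect ψ (ι (e L)) v = sect ψ (ι (e L')) v := congrArg Prod.snd h2
    have h4 : (e L')⁻¹ * e L ≠ 1 := fun h5 => h3 (inv_mul_eq_one.1 h5).symm
    refine h1 _ h4 ?_ ?_
    · rw [map_mul, map_inv, act_mul, ha, act_inv_act]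
    · rw [map_mul, map_inv, sect_mul, ha, sect_inv, act_inv_act, hs, inv_mul_cancel]
  have hWM : (W ×ˢ M).Finite := (finite_words (X := X) _).prod hM.fin
  have h5 : D.ncard ≤ (W ×ˢ M).ncard := Set.ncard_le_ncard_of_injOn F hmaps hinj hWM
  have h6 : D.ncard = 2 ^ (2 ^ j) := by
    have h7 : D.ncard = Nat.card (List.Vector (Fin 2) (2 ^ j)) := rfl
    rw [h7, Nat.card_eq_fintype_card, card_vector, Fintype.card_fin]
  have h8 : (W ×ˢ M).ncard ≤
      (Nat.card X + 1) ^ n * M.ncard * ((Nat.card X + 1) ^ k₀) ^ j := by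
    calc (W ×ˢ M).ncard = W.ncard * M.ncard := Set.ncard_prod
        _ ≤ (Nat.card X + 1) ^ (n + j * k₀) * M.ncard :=
          Nat.mul_le_mul_right _ (ncard_words X _)
        _ = _ := by rw [pow_add, ← pow_mul, mul_comm k₀ j]; ring
  have h9 : 2 ^ (2 ^ j) ≤ (Nat.card X + 1) ^ n * M.ncard * ((Nat.card X + 1) ^ k₀) ^ j := by
    rw [← h6]
    exact h5.trans h8
  have h10 : ((2 ^ (2 ^ j) : ℕ) : ℝ) ≤
      (((Nat.card X + 1) ^ n * M.ncard * ((Nat.card X + 1) ^ k₀) ^ j : ℕ) : ℝ) := by
    exact_mod_cast h9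
  push_cast at h10 hj'
  linarith

/-- **contracting groups contain no nonabelian free groups** -/
theorem no_free : False := by
  classical
  obtain ⟨ℓ, hℓ⟩ := exists_level hψ hf ι hι
  -- a power which acts trivially on the level
  obtain ⟨s, hs0, hs⟩ : ∃ s : ℕ, 0 < s ∧ ∀ (g : G) (v : List X), v.length = ℓ →
      act ψ (g ^ s) v = v := by
    have hfin : Finite {v : List X // v.length = ℓ} := List.finite_length_eq X ℓ
    let P := Equiv.Perm {v : List X // v.length = ℓ}
    let ρ : G →* P :=
      { toFun := fun g =>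
          { toFun := fun v => ⟨act ψ g v.1, by rw [act_length]; exact v.2⟩
            invFun := fun v => ⟨act ψ g⁻¹ v.1, by rw [act_length]; exact v.2⟩
            left_inv := fun v => Subtype.ext (act_inv_act ψ g v.1)
            right_inv := fun v => Subtype.ext (act_act_inv ψ g v.1) }
        map_one' := by
          apply Equiv.ext
          intro v
          exact Subtype.ext (act_one ψ v.1)
        map_mul' := fun a b => by
          apply Equiv.ext
          intro v
          exact Subtype.ext (act_mul ψ a b v.1) }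
    refine ⟨Nat.card P, Nat.card_pos, fun g v hv => ?_⟩
    have h1 : ρ (g ^ Nat.card P) = 1 := by rw [map_pow, pow_card_eq_one']
    have h2 := DFunLike.congr_fun h1 (⟨v, hv⟩ : {v : List X // v.length = ℓ})
    exact congrArg Subtype.val h2
  -- elements which act trivially on the level
  let T : FreeGroup (Fin 2) → Prop := fun w => ∀ v : List X, v.length = ℓ → act ψ (ι w) v = v
  have hTmul : ∀ a b, T a → T b → T (a * b) := by
    intro a b ha hb v hv
    rw [map_mul, act_mul, hb v hv, ha v hv]
  have hTinv : ∀ a, T a → T a⁻¹ := by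
    intro a ha v hv
    have h1 := act_inv_act ψ (ι a) v
    rw [ha v hv] at h1
    rw [map_inv]
    exact h1
  have hTs : ∀ a : FreeGroup (Fin 2), T (a ^ s) := by
    intro a v hv
    rw [map_pow]
    exact hs _ v hv
  let A : List X → FreeGroup (Fin 2) → Prop := fun v w => T w ∧ sect ψ (ι w) v = 1
  have hAmul : ∀ v, v.length = ℓ → ∀ a b, A v a → A v b → A v (a * b) := by
    intro v hv a b ha hb
    refine ⟨hTmul a b ha.1 hb.1, ?_⟩
    rw [map_mul, sect_mul, hb.1 v hv, ha.2, hb.2, mul_one]
  have hAinv : ∀ v, v.length = ℓ → ∀ a, A v a → A v a⁻¹ := by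
    intro v hv a ha
    refine ⟨hTinv a ha.1, ?_⟩
    have h1 := hTinv a ha.1 v hv
    rw [map_inv] at h1
    rw [map_inv, sect_inv, h1, ha.2, inv_one]
  have hAconj : ∀ v, v.length = ℓ → ∀ a c, A v a → T c → A v (c * a * c⁻¹) := by
    intro v hv a c ha hc
    refine ⟨hTmul _ _ (hTmul _ _ hc ha.1) (hTinv _ hc), ?_⟩
    have h1 := hTinv c hc v hv
    rw [map_inv] at h1
    rw [map_mul, map_mul, map_inv, sect_mul, h1, sect_mul, ha.1 v hv, ha.2, mul_one, sect_inv, h1,
      mul_inv_cancel]
  have hmain : ∀ V : Finset (List X), (∀ v ∈ V, v.length = ℓ) →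
      ∃ w : FreeGroup (Fin 2), w ≠ 1 ∧ T w ∧ ∀ v ∈ V, A v w := by
    intro V
    induction V using Finset.induction_on with
    | empty =>
      intro _
      refine ⟨FreeGroup.of 0 ^ s, ?_, hTs _, by simp⟩
      intro h
      exact FreeGroup.of_ne_one (0 : Fin 2) ((pow_eq_one_iff_left hs0.ne').1 h)
    | insert v₀ V _ ih =>
      intro hV
      obtain ⟨w, hw1, hwT, hw⟩ := ih fun v hv => hV v (Finset.mem_insert_of_mem hv)
      have hv₀ : v₀.length = ℓ := hV v₀ (Finset.mem_insert_self _ _)
      obtain ⟨b, hb1, hb2, hb3⟩ := hℓ v₀ hv₀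
      have hbs : b ^ s ≠ 1 := fun h => hb1 ((pow_eq_one_iff_left hs0.ne').1 h)
      have hbA : A v₀ (b ^ s) := by
        refine ⟨hTs b, ?_⟩
        have h1 : ∀ i : ℕ, act ψ (ι b ^ i) v₀ = v₀ ∧ sect ψ (ι b ^ i) v₀ = 1 := by
          intro i
          induction i with
          | zero => exact ⟨by rw [pow_zero, act_one], by rw [pow_zero, sect_one]⟩
          | succ i ih => exact ⟨by rw [pow_succ, act_mul, hb2, ih.1],
              by rw [pow_succ, sect_mul, hb2, hb3, ih.2, mul_one]⟩
        rw [map_pow]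
        exact (h1 s).2
      obtain ⟨d, e, hde⟩ := Pool.Agent.H149R3.exists_not_commute ⟨0, 1, by decide⟩ w (b ^ s) hw1
        hbs s hs0
      set c : FreeGroup (Fin 2) := FreeGroup.mk [d] ^ s * FreeGroup.mk [e] ^ s with hc
      have hcT : T c := hTmul _ _ (hTs _) (hTs _)
      have hbc : A v₀ (c * b ^ s * c⁻¹) := hAconj v₀ hv₀ _ _ hbA hcT
      have hgT : T (w * (c * b ^ s * c⁻¹) * w⁻¹ * (c * b ^ s * c⁻¹)⁻¹) :=
        hTmul _ _ (hTmul _ _ (hTmul _ _ hwT hbc.1) (hTinv _ hwT)) (hTinv _ hbc.1)
      refine ⟨w * (c * b ^ s * c⁻¹) * w⁻¹ * (c * b ^ s * c⁻¹)⁻¹, ?_, hgT, ?_⟩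
      · intro h
        apply hde
        have h1 : w * (c * b ^ s * c⁻¹) * w⁻¹ = c * b ^ s * c⁻¹ := mul_inv_eq_one.1 h
        exact mul_inv_eq_iff_eq_mul.1 h1
      · intro v hv
        rcases Finset.mem_insert.1 hv with rfl | hv
        · exact hAmul _ hv₀ _ _ (hAconj _ hv₀ _ _ hbc hwT) (hAinv _ hv₀ _ hbc)
        · have hvl := hV v (Finset.mem_insert_of_mem hv)
          have h1 := hAconj v hvl _ _ (hAinv v hvl _ (hw v hv)) hbc.1
          have h2 := hAmul v hvl _ _ (hw v hv) h1
          have e1 : w * ((c * b ^ s * c⁻¹) * w⁻¹ * (c * b ^ s * c⁻¹)⁻¹) =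
              w * (c * b ^ s * c⁻¹) * w⁻¹ * (c * b ^ s * c⁻¹)⁻¹ := by group
          rwa [e1] at h2
  have hfin : {v : List X | v.length = ℓ}.Finite := List.finite_length_eq X ℓ
  obtain ⟨w, hw1, hwT, hw⟩ := hmain hfin.toFinset (fun v hv => by simpa using hv)
  apply hw1
  apply hι
  rw [map_one]
  apply hf
  intro u
  by_cases hu : ℓ ≤ u.length
  · have hl : (u.take ℓ).length = ℓ := by rw [List.length_take]; omega
    have h1 : A (u.take ℓ) w := hw _ (by simpa using hl)
    have h2 := act_append ψ (ι w) (u.take ℓ) (u.drop ℓ)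
    rw [List.take_append_drop, hwT _ hl, h1.2, act_one, List.take_append_drop] at h2
    exact h2
  · cases u with
    | nil => rw [act_nil]
    | cons x u =>
      set r := List.replicate (ℓ - (x :: u).length) x
      have hl : ((x :: u) ++ r).length = ℓ := by
        rw [List.length_append, List.length_replicate]
        omega
      have h2 := act_append ψ (ι w) (x :: u) r
      rw [hwT _ hl] at h2
      exact (List.append_inj_left h2 (by rw [act_length])).symm

end

end Run7.h161.CG
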