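import Pool.Agent.Run7.h161.CG.Cls

/-!
# The recursion on the faithful quotient
-/

set_option autoImplicit false

namespace Run7.h161.CG

open Pool.Agent.Y462.SS
open Pool.Agent.Y331.SS (wmap wmap_s wmap_p)

variable {X Γ G : Type} [Group Γ] [Group G] (ψ : Γ →* Wr X Γ) (f : Γ →* G)
  (hf : Function.Surjective f) (hk : ∀ γ : Γ, f γ = 1 ↔ Triv ψ γ)

include hk in
theorem ker_le : f.ker ≤ ((wmap f).comp ψ).ker := by
  intro γ hγ
  have h1 : Triv ψ γ := (hk γ).1 hγ
  rw [MonoidHom.mem_ker]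
  apply Wr.ext
  · funext x
    change f ((ψ γ).s x) = 1
    exact (hk _).2 (h1.sec x)
  · exact h1.root

/-- the recursion on the quotient -/
noncomputable def qψ : G →* Wr X G :=
  f.liftOfSurjective hf ⟨(wmap f).comp ψ, ker_le ψ f hk⟩

theorem qψ_apply (γ : Γ) : qψ ψ f hf hk (f γ) = wmap f (ψ γ) :=
  f.liftOfRightInverse_comp_apply _ _ ⟨(wmap f).comp ψ, ker_le ψ f hk⟩ γ

theorem sect_q (γ : Γ) (v : List X) :
    sect (qψ ψ f hf hk) (f γ) v = f (sect ψ γ v) := by
  induction v generalizing γ with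
  | nil => rw [sect_nil, sect_nil]
  | cons x v ih => rw [sect_cons, sect_cons, qψ_apply, wmap_s, ih]

theorem act_q (γ : Γ) (v : List X) : act (qψ ψ f hf hk) (f γ) v = act ψ γ v := by
  induction v generalizing γ with
  | nil => rw [act_nil, act_nil]
  | cons x v ih => rw [act_cons, act_cons, qψ_apply, wmap_s, wmap_p, ih]

theorem contracting_q (hψ : Contracting ψ) : Contracting (qψ ψ f hf hk) := by
  obtain ⟨N, hN, h⟩ := hψ
  refine ⟨f '' N, hN.image f, fun g => ?_⟩
  obtain ⟨γ, rfl⟩ := hf g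
  obtain ⟨n, hn⟩ := h γ
  exact ⟨n, fun v hv => ⟨_, hn v hv, (sect_q ψ f hf hk γ v).symm⟩⟩

theorem faithful_q (g : G) (hg : Triv (qψ ψ f hf hk) g) : g = 1 := by
  obtain ⟨γ, rfl⟩ := hf g
  rw [hk]
  intro w
  rw [← act_q ψ f hf hk]
  exact hg w

include hf hk in
theorem contractingGroup_q [Finite X] (hψ : Contracting ψ) : ContractingGroup G :=
  ⟨X, inferInstance, qψ ψ f hf hk, contracting_q ψ f hf hk hψ, faithful_q ψ f hf hk⟩

end Run7.h161.CG
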