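import Pool.Agent.Run7.h161.CG.Defs
import Pool.Agent.Y462.SS.Tree

/-!
# Contracting recursions: sections and the logarithmic estimate
-/

set_option autoImplicit false

namespace Run7.h161.CG

open Pool.Agent.Y462.SS

variable {X Γ : Type} [Group Γ] (ψ : Γ →* Wr X Γ)

theorem sect_nil (γ : Γ) : sect ψ γ [] = γ := by rw [sect]

theorem sect_cons (γ : Γ) (x : X) (v : List X) :
    sect ψ γ (x :: v) = sect ψ ((ψ γ).s x) v := by rw [sect]

theorem sect_append (γ : Γ) (v w : List X) : sect ψ γ (v ++ w) = sect ψ (sect ψ γ v) w := by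
  induction v generalizing γ with
  | nil => rw [List.nil_append, sect_nil]
  | cons x v ih => rw [List.cons_append, sect_cons, sect_cons, ih]

theorem sect_one (v : List X) : sect ψ 1 v = 1 := by
  induction v with
  | nil => rw [sect_nil]
  | cons x v ih => rw [sect_cons, map_one, Wr.one_s, ih]

theorem sect_mul (γ δ : Γ) (v : List X) :
    sect ψ (γ * δ) v = sect ψ γ (act ψ δ v) * sect ψ δ v := by
  induction v generalizing γ δ with
  | nil => rw [sect_nil, sect_nil, act_nil, sect_nil]
  | cons x v ih => rw [sect_cons, act_cons, sect_cons, sect_cons, map_mul, Wr.mul_s, ih]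

theorem act_append (γ : Γ) (v w : List X) :
    act ψ γ (v ++ w) = act ψ γ v ++ act ψ (sect ψ γ v) w := by
  induction v generalizing γ with
  | nil => rw [List.nil_append, act_nil, sect_nil, List.nil_append]
  | cons x v ih => rw [List.cons_append, act_cons, act_cons, sect_cons, ih, List.cons_append]

theorem sect_inv (γ : Γ) (v : List X) : sect ψ γ⁻¹ v = (sect ψ γ (act ψ γ⁻¹ v))⁻¹ := by
  have h := sect_mul ψ γ γ⁻¹ v
  rw [mul_inv_cancel, sect_one] at h
  exact (inv_eq_of_mul_eq_one_right h.symm).symm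

theorem act_act_inv (γ : Γ) (v : List X) : act ψ γ (act ψ γ⁻¹ v) = v := by
  rw [← act_mul, mul_inv_cancel, act_one]

theorem act_inv_act (γ : Γ) (v : List X) : act ψ γ⁻¹ (act ψ γ v) = v := by
  rw [← act_mul, inv_mul_cancel, act_one]

/-- the sections of all elements of `M` -/
def Secs (M : Set Γ) : Set Γ := {δ | ∃ γ ∈ M, ∃ v : List X, δ = sect ψ γ v}

/-- a finite symmetric self-similar set `M` to which all products of two of its elements are brought
by `k` steps of the recursion, and every element by some number of steps -/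
structure Nuc (M : Set Γ) (k : ℕ) : Prop where
  fin : M.Finite
  one : (1 : Γ) ∈ M
  inv : ∀ m ∈ M, m⁻¹ ∈ M
  sec : ∀ m ∈ M, ∀ v : List X, sect ψ m v ∈ M
  mul : ∀ a ∈ M, ∀ b ∈ M, ∀ v : List X, k ≤ v.length → sect ψ (a * b) v ∈ M
  all : ∀ γ : Γ, ∃ n : ℕ, ∀ v : List X, n ≤ v.length → sect ψ γ v ∈ M

theorem finite_words [Finite X] (n : ℕ) : {v : List X | v.length ≤ n}.Finite :=
  List.finite_length_le X n

variable {ψ}

theorem exists_nuc [Finite X] (h : Contracting ψ) : ∃ (M : Set Γ) (k : ℕ), Nuc ψ M k := by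
  obtain ⟨N, hN, h1⟩ := h
  let N0 : Set Γ := N ∪ N⁻¹ ∪ {1}
  have hN0 : N0.Finite := (hN.union hN.inv).union (Set.finite_singleton 1)
  let M : Set Γ := Secs ψ N0
  have hMfin : M.Finite := by
    have h2 : ∀ γ : Γ, {δ | ∃ v : List X, δ = sect ψ γ v}.Finite := by
      intro γ
      obtain ⟨n, hn⟩ := h1 γ
      refine (hN.union ((finite_words (X := X) n).image (sect ψ γ))).subset ?_
      rintro δ ⟨v, rfl⟩
      by_cases hv : n ≤ v.length
      · exact Or.inl (hn v hv)
      · exact Or.inr ⟨v, by simpa using (not_le.1 hv).le, rfl⟩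
    have h3 : M = ⋃ γ ∈ N0, {δ | ∃ v : List X, δ = sect ψ γ v} := by
      ext δ
      simp [M, Secs]
    rw [h3]
    exact hN0.biUnion fun γ _ => h2 γ
  have hNM : N ⊆ M := fun γ hγ => ⟨γ, Or.inl (Or.inl hγ), [], (sect_nil ψ γ).symm⟩
  have hN0inv : ∀ γ ∈ N0, γ⁻¹ ∈ N0 := by
    rintro γ ((h | h) | h)
    · exact Or.inl (Or.inr (by simpa using h))
    · exact Or.inl (Or.inl (by simpa using h))
    · refine Or.inr ?_
      rw [Set.mem_singleton_iff] at h ⊢
      rw [h, inv_one]
  choose n hn using h1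
  have hall : ∀ γ : Γ, ∀ v : List X, n γ ≤ v.length → sect ψ γ v ∈ M :=
    fun γ v hv => hNM (hn γ v hv)
  have hfin2 : (Set.image2 (fun a b => n (a * b)) M M).Finite := hMfin.image2 _ hMfin
  obtain ⟨k, hk⟩ := hfin2.bddAbove
  refine ⟨M, k, ⟨hMfin, ⟨1, Or.inr rfl, [], (sect_nil ψ 1).symm⟩, ?_, ?_, ?_,
    fun γ => ⟨n γ, hall γ⟩⟩⟩
  · rintro m ⟨γ, hγ, v, rfl⟩
    refine ⟨γ⁻¹, hN0inv γ hγ, act ψ γ v, ?_⟩
    rw [sect_inv, act_inv_act]
  · rintro m ⟨γ, hγ, v, rfl⟩ w
    exact ⟨γ, hγ, v ++ w, (sect_append ψ γ v w).symm⟩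
  · intro a ha b hb v hv
    exact hall _ v ((hk (Set.mem_image2_of_mem ha hb)).trans hv)


/-- `g` is a product of `2 ^ j` elements of `S` -/
inductive Prods (S : Set Γ) : ℕ → Γ → Prop
  | base (g : Γ) : g ∈ S → Prods S 0 g
  | step (j : ℕ) (a b : Γ) : Prods S j a → Prods S j b → Prods S (j + 1) (a * b)

theorem Prods.sect_prods {M S : Set Γ} {n : ℕ}
    (hS : ∀ s ∈ S, ∀ v : List X, n ≤ v.length → sect ψ s v ∈ M) {j : ℕ} {g : Γ}
    (hg : Prods S j g) (v : List X) (hv : n ≤ v.length) : Prods M j (sect ψ g v) := by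
  induction hg generalizing v with
  | base g hg => exact Prods.base _ (hS g hg v hv)
  | step j a b _ _ iha ihb =>
    rw [sect_mul]
    exact Prods.step j _ _ (iha _ (by rw [act_length]; exact hv)) (ihb v hv)

theorem Nuc.prods {M : Set Γ} {k : ℕ} (h : Nuc ψ M k) {j : ℕ} {g : Γ} (hg : Prods M j g)
    (v : List X) (hv : j * k ≤ v.length) : sect ψ g v ∈ M := by
  induction hg generalizing v with
  | base g hg => exact h.sec g hg v
  | step j a b _ _ iha ihb =>
    have hv1 : (v.take (j * k)).length = j * k := by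
      rw [List.length_take]
      have : j * k ≤ (j + 1) * k := Nat.mul_le_mul_right k (Nat.le_succ j)
      omega
    have hv2 : k ≤ (v.drop (j * k)).length := by
      rw [List.length_drop]
      have : (j + 1) * k = j * k + k := by ring
      omega
    have e : v = v.take (j * k) ++ v.drop (j * k) := (List.take_append_drop _ _).symm
    rw [e, sect_append, sect_mul]
    exact h.mul _ (iha _ (by rw [act_length, hv1])) _ (ihb _ (by rw [hv1])) _ hv2

/-- the logarithmic estimate for a finite set of elements -/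
theorem Nuc.prods' {M : Set Γ} {k : ℕ} (h : Nuc ψ M k) {S : Set Γ} (hS : S.Finite) :
    ∃ n : ℕ, ∀ (j : ℕ) (g : Γ), Prods S j g → ∀ v : List X, n + j * k ≤ v.length →
      sect ψ g v ∈ M := by
  choose n hn using h.all
  obtain ⟨m, hm⟩ := (hS.image n).bddAbove
  refine ⟨m, fun j g hg v hv => ?_⟩
  have hv1 : (v.take m).length = m := by
    rw [List.length_take]
    omega
  have hv2 : j * k ≤ (v.drop m).length := by
    rw [List.length_drop]
    omega
  have e : v = v.take m ++ v.drop m := (List.take_append_drop _ _).symm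
  rw [e, sect_append]
  refine h.prods (Prods.sect_prods (n := m) (fun s hs w hw => hn s w ?_) hg _ (by rw [hv1])) _ hv2
  exact (hm (Set.mem_image_of_mem n hs)).trans hw

end Run7.h161.CG
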