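import Pool.Agent.Run7.h161.CG.Slow
import Pool.Agent.Run7.h161.CG.Sec

/-!
# Contracting groups are slow
-/

set_option autoImplicit false

namespace Run7.h161.CG

open Pool.Agent.Y462.SS
open scoped Pointwise

theorem exists_big (A B : ℕ) (c : ℝ) (hc : 1 < c) (k : ℕ) :
    ∃ j : ℕ, k ≤ 2 ^ j ∧ ((A * B ^ j : ℕ) : ℝ) < c ^ (2 ^ j) := by
  obtain ⟨b, hb⟩ : ∃ b : ℕ, B ≤ 2 ^ b := ⟨B, Nat.lt_two_pow_self.le⟩
  have h1 := tendsto_pow_const_div_const_pow_of_one_lt b hc
  have h2 : Filter.Tendsto (fun j : ℕ => 2 ^ j) Filter.atTop Filter.atTop :=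
    tendsto_pow_atTop_atTop_of_one_lt one_lt_two
  have h3 := h1.comp h2
  have h4 : ∀ᶠ j : ℕ in Filter.atTop, ((2 ^ j : ℕ) : ℝ) ^ b / c ^ (2 ^ j) < 1 / (A + 1) :=
    h3.eventually_lt_const (by positivity)
  have h5 : ∀ᶠ j : ℕ in Filter.atTop, k ≤ 2 ^ j := h2.eventually_ge_atTop k
  obtain ⟨j, hj, hj'⟩ := (h4.and h5).exists
  refine ⟨j, hj', ?_⟩
  have hcp : (0 : ℝ) < c ^ (2 ^ j) := by positivity
  have h6 : ((2 ^ j : ℕ) : ℝ) ^ b * (A + 1) < c ^ (2 ^ j) := by
    rw [div_lt_div_iff₀ hcp (by positivity), one_mul] at hj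
    exact hj
  refine lt_of_le_of_lt ?_ h6
  have h7 : A * B ^ j ≤ (2 ^ j) ^ b * (A + 1) := by
    calc A * B ^ j ≤ A * (2 ^ b) ^ j := Nat.mul_le_mul_left _ (Nat.pow_le_pow_left hb j)
      _ = (2 ^ j) ^ b * A := by rw [← pow_mul, ← pow_mul, mul_comm b j, mul_comm]
      _ ≤ (2 ^ j) ^ b * (A + 1) := Nat.mul_le_mul_left _ (Nat.le_succ A)
  exact_mod_cast h7

theorem prods_of_mem {Γ : Type} [Group Γ] {S : Set Γ} (j : ℕ) :
    ∀ g ∈ S ^ (2 ^ j), Prods S j g := by
  induction j with
  | zero =>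
    intro g hg
    rw [pow_zero, pow_one] at hg
    exact Prods.base g hg
  | succ j ih =>
    intro g hg
    rw [pow_succ, mul_two, pow_add] at hg
    obtain ⟨a, ha, b, hb, rfl⟩ := Set.mem_mul.1 hg
    exact Prods.step j a b (ih a ha) (ih b hb)

theorem ncard_words (X : Type) [Finite X] (ℓ : ℕ) :
    {v : List X | v.length ≤ ℓ}.ncard ≤ (Nat.card X + 1) ^ ℓ := by
  have := Fintype.ofFinite X
  let f : List X → (Fin ℓ → Option X) := fun v i => v[(i : ℕ)]?
  have hf : Set.InjOn f {v : List X | v.length ≤ ℓ} := by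
    intro v hv w hw h
    apply List.ext_getElem?
    intro i
    by_cases hi : i < ℓ
    · exact congrFun h ⟨i, hi⟩
    · have h1 : v.length ≤ ℓ := hv
      have h2 : w.length ≤ ℓ := hw
      rw [List.getElem?_eq_none (by omega), List.getElem?_eq_none (by omega)]
  calc {v : List X | v.length ≤ ℓ}.ncard ≤ (Set.univ : Set (Fin ℓ → Option X)).ncard :=
        Set.ncard_le_ncard_of_injOn f (fun _ _ => Set.mem_univ _) hf Set.finite_univ
    _ = (Nat.card X + 1) ^ ℓ := by
        rw [Set.ncard_univ, Nat.card_eq_fintype_card, Fintype.card_fun, Fintype.card_option,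
          Fintype.card_fin, Nat.card_eq_fintype_card]

/-- the action on the words -/
@[reducible] def wordAction {X L : Type} [Group L] (ψ : L →* Wr X L) : MulAction L (List X) where
  smul g w := act ψ g w
  one_smul w := act_one ψ w
  mul_smul g h w := act_mul ψ g h w

theorem slow_words {X L : Type} [Finite X] [Group L] (ψ : L →* Wr X L) (hψ : Contracting ψ) :
    @SlowAction L (List X) _ ⊥ (wordAction ψ) := by
  classical
  letI : TopologicalSpace (List X) := ⊥
  haveI : DiscreteTopology (List X) := ⟨rfl⟩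
  letI := wordAction ψ
  obtain ⟨M, k₀, hM⟩ := exists_nuc hψ
  intro S hS c hc k
  obtain ⟨n, hn⟩ := hM.prods' hS
  obtain ⟨j, hj, hj'⟩ := exists_big ((Nat.card X + 1) ^ n * M.ncard) ((Nat.card X + 1) ^ k₀) c hc k
  set ℓ := n + j * k₀ with hℓ
  refine ⟨2 ^ j, hj, {v : List X // v.length ≤ ℓ}, ?_, fun v => {w | w.take ℓ = v.1},
    fun v => isOpen_discrete _, ?_, ?_⟩
  · exact (finite_words (X := X) ℓ)
  · apply Set.eq_univ_of_forall
    intro w
    exact Set.mem_iUnion.2 ⟨⟨w.take ℓ, List.length_take_le ℓ w⟩, rfl⟩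
  · rintro ⟨v, hv⟩
    let W : Set (List X) := {a | a.length ≤ ℓ}
    let F : List X × L → ({w : List X | w.take ℓ = v} → List X) :=
      fun t w => t.1 ++ act ψ t.2 ((w : List X).drop v.length)
    have hsub : (fun (g : L) (w : {w : List X | w.take ℓ = v}) => g • (w : List X)) '' (S ^ (2 ^ j)) ⊆
        F '' (W ×ˢ M) := by
      rintro _ ⟨g, hg, rfl⟩
      by_cases hvl : v.length = ℓ
      · refine ⟨(act ψ g v, sect ψ g v), ⟨?_, hn j g (prods_of_mem j g hg) v hvl.ge⟩, ?_⟩
        · change (act ψ g v).length ≤ ℓ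
          rw [act_length]
          exact hv
        · funext w
          obtain ⟨w, hw⟩ := w
          have hw' : w.take ℓ = v := hw
          change act ψ g v ++ act ψ (sect ψ g v) (w.drop v.length) = act ψ g w
          rw [← act_append, hvl, ← hw', List.take_append_drop]
      · refine ⟨(act ψ g v, 1), ⟨?_, hM.one⟩, ?_⟩
        · change (act ψ g v).length ≤ ℓ
          rw [act_length]
          exact hv
        · funext w
          obtain ⟨w, hw⟩ := w
          have hw' : w.take ℓ = v := hw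
          have h1 : w.length ≤ ℓ := by
            by_contra h2
            apply hvl
            rw [← hw', List.length_take]
            omega
          have h2 : w = v := by rw [← hw', List.take_of_length_le h1]
          change act ψ g v ++ act ψ 1 (w.drop v.length) = act ψ g w
          rw [h2, List.drop_length, act_nil, List.append_nil]
    have hWM : (W ×ˢ M).Finite := (finite_words (X := X) ℓ).prod hM.fin
    have h3 : ((fun (g : L) (w : {w : List X | w.take ℓ = v}) => g • (w : List X)) ''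
        (S ^ (2 ^ j))).ncard ≤ (Nat.card X + 1) ^ n * M.ncard * ((Nat.card X + 1) ^ k₀) ^ j := by
      calc _ ≤ (F '' (W ×ˢ M)).ncard := Set.ncard_le_ncard hsub (hWM.image F)
        _ ≤ (W ×ˢ M).ncard := Set.ncard_image_le hWM
        _ = W.ncard * M.ncard := Set.ncard_prod
        _ ≤ (Nat.card X + 1) ^ ℓ * M.ncard := Nat.mul_le_mul_right _ (ncard_words X ℓ)
        _ = _ := by rw [hℓ, pow_add, ← pow_mul, mul_comm k₀ j]; ring
    exact lt_of_le_of_lt (by exact_mod_cast h3) hj'

theorem slow_of_contracting (L : Type) [Group L] (h : ContractingGroup L) : SlowGroup L := by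
  obtain ⟨X, _, ψ, hψ, hf⟩ := h
  exact ⟨List X, ⊥, wordAction ψ, slow_words ψ hψ, fun g hg => hf g hg⟩

end Run7.h161.CG
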