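import Pool.Agent.Run7.h161.CG.SlowDefs

/-!
# Slow actions: no element of infinite order is conjugate to a proper power
-/

set_option autoImplicit false

namespace Run7.h161.CG

open scoped Pointwise

theorem fin_pow {L : Type} [Group L] {S : Set L} (hS : S.Finite) (m : ℕ) : (S ^ m).Finite := by
  induction m with
  | zero => rw [pow_zero]; exact Set.finite_one
  | succ m ih => rw [pow_succ]; exact ih.mul hS

/-- Horner's scheme: small powers of `g` are short words if `h g h⁻¹ = g ^ n` -/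
theorem horner {L : Type} [Group L] {g h : L} {n : ℕ} (hn : 2 ≤ n) (hc : h * g * h⁻¹ = g ^ n)
    {S : Set L} (h1 : 1 ∈ S) (hg : g ∈ S) (hh : h ∈ S) (hh' : h⁻¹ ∈ S) (q : ℕ) :
    ∀ K < n ^ q, g ^ K ∈ S ^ ((n + 2) * q) := by
  have hpow : ∀ a : ℕ, a ≤ n → g ^ a ∈ S ^ n := by
    intro a ha
    have h2 : g ^ a ∈ S ^ a := Set.pow_mem_pow hg
    exact Set.pow_subset_pow_right h1 ha h2
  induction q with
  | zero =>
    intro K hK
    have : K = 0 := by simpa using hK
    rw [this, pow_zero, mul_zero, pow_zero]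
    exact Set.mem_one.2 rfl
  | succ q ih =>
    intro K hK
    have hn0 : 0 < n := by omega
    have hK' : K / n < n ^ q := by
      rw [Nat.div_lt_iff_lt_mul hn0]
      rwa [pow_succ] at hK
    have e : g ^ K = g ^ (K % n) * (h * g ^ (K / n) * h⁻¹) := by
      have h3 : h * g ^ (K / n) * h⁻¹ = g ^ (n * (K / n)) := by
        rw [← conj_pow, hc, ← pow_mul]
      rw [h3, ← pow_add, Nat.mod_add_div]
    rw [e]
    have h4 : (n + 2) * (q + 1) = n + (1 + (n + 2) * q + 1) := by ring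
    rw [h4, pow_add S n]
    refine Set.mul_mem_mul (hpow _ (Nat.mod_lt _ hn0).le) ?_
    rw [pow_succ]
    refine Set.mul_mem_mul ?_ hh'
    rw [pow_add, pow_one]
    exact Set.mul_mem_mul hh (ih _ hK')

theorem noPow_of_slow {L Ω : Type} [Group L] [TopologicalSpace Ω] [MulAction L Ω]
    (hs : SlowAction L Ω) (hf : ∀ g : L, (∀ x : Ω, g • x = x) → g = 1) (g : L)
    (hg : ∀ j : ℕ, 0 < j → g ^ j ≠ 1) (n : ℕ) (hn : 2 ≤ n) : ¬ IsConj g (g ^ n) := by
  intro hconj
  obtain ⟨h, hc⟩ := isConj_iff.1 hconj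
  let S : Set L := {1, g, h, h⁻¹}
  have hS : S.Finite := Set.toFinite _
  have h1 : (1 : L) ∈ S := by simp [S]
  -- the constant
  obtain ⟨c, hc1, hc2⟩ : ∃ c : ℝ, 1 < c ∧ c ^ (2 * (n + 2)) ≤ 2 := by
    have hpos : (0 : ℝ) < 2 * (n + 2) := by positivity
    refine ⟨2 ^ ((1 : ℝ) / (2 * (n + 2))), Real.one_lt_rpow (by norm_num) (by positivity), ?_⟩
    rw [← Real.rpow_natCast, ← Real.rpow_mul (by norm_num)]
    push_cast
    rw [one_div, inv_mul_cancel₀ hpos.ne', Real.rpow_one]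
  obtain ⟨m, hm, I, _, U, -, hU, hcard⟩ := hs S hS c hc1 (n + 2)
  set q := m / (n + 2) with hq
  have hq1 : 1 ≤ q := (Nat.one_le_div_iff (by omega)).2 hm
  have hm1 : (n + 2) * q ≤ m := Nat.mul_div_le m (n + 2)
  have hm2 : m ≤ 2 * (n + 2) * q := by
    have h3 : m < (n + 2) * (q + 1) := by
      have := Nat.lt_mul_div_succ m (show 0 < n + 2 by omega)
      simpa using this
    nlinarith
  have hcm : c ^ m ≤ (n : ℝ) ^ q := by
    calc c ^ m ≤ c ^ (2 * (n + 2) * q) := pow_le_pow_right₀ hc1.le hm2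
      _ = (c ^ (2 * (n + 2))) ^ q := pow_mul _ _ _
      _ ≤ (2 : ℝ) ^ q := pow_le_pow_left₀ (by positivity) hc2 q
      _ ≤ (n : ℝ) ^ q := pow_le_pow_left₀ (by norm_num) (by exact_mod_cast hn) q
  -- on every piece some power acts trivially
  have hpiece : ∀ i, ∃ j : ℕ, 0 < j ∧ ∀ x ∈ U i, g ^ j • x = x := by
    intro i
    let r : ℕ → (U i → Ω) := fun K x => g ^ K • (x : Ω)
    have hmaps : ∀ K ∈ Set.Iio (n ^ q), r K ∈
        (fun (g : L) (x : U i) => g • (x : Ω)) '' (S ^ m) := by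
      intro K hK
      refine ⟨g ^ K, ?_, rfl⟩
      have h4 := horner hn hc h1 (show g ∈ S by simp [S]) (show h ∈ S by simp [S])
        (show h⁻¹ ∈ S by simp [S]) q K hK
      exact Set.pow_subset_pow_right h1 hm1 h4
    have hlt : ((fun (g : L) (x : U i) => g • (x : Ω)) '' (S ^ m)).ncard <
        (Set.Iio (n ^ q)).ncard := by
      have h5 : (Set.Iio (n ^ q)).ncard = n ^ q := by
        generalize n ^ q = N
        rw [Set.ncard_eq_toFinset_card', Set.toFinset_Iio, Nat.card_Iio]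
      rw [h5]
      have h6 := (hcard i).trans_le hcm
      exact_mod_cast h6
    have hfin : ((fun (g : L) (x : U i) => g • (x : Ω)) '' (S ^ m)).Finite :=
      (fin_pow hS m).image _
    obtain ⟨a, ha, b, hb, hab, h7⟩ :=
      Set.exists_ne_map_eq_of_ncard_lt_of_maps_to hlt hmaps hfin
    wlog hlt' : a < b generalizing a b
    · exact this b hb a ha hab.symm h7.symm (lt_of_le_of_ne (not_lt.1 hlt') hab.symm)
    refine ⟨b - a, by omega, fun x hx => ?_⟩
    have h8 : g ^ a • x = g ^ b • x := congrFun h7 ⟨x, hx⟩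
    have h9 : g ^ b = g ^ a * g ^ (b - a) := by rw [← pow_add]; congr 1; omega
    rw [h9, mul_smul] at h8
    exact (smul_left_cancel _ h8).symm
  choose j hj0 hj using hpiece
  have := Fintype.ofFinite I
  refine hg (∏ i, j i) (Finset.prod_pos fun i _ => hj0 i) (hf _ fun x => ?_)
  have hx : x ∈ ⋃ i, U i := by rw [hU]; trivial
  obtain ⟨i, hi⟩ := Set.mem_iUnion.1 hx
  obtain ⟨d, hd⟩ := Finset.dvd_prod_of_mem j (Finset.mem_univ i)
  rw [hd, pow_mul]
  have h10 : ∀ d : ℕ, (g ^ j i) ^ d • x = x := by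
    intro d
    induction d with
    | zero => rw [pow_zero, one_smul]
    | succ d ih => rw [pow_succ, mul_smul, hj i x hi, ih]
  exact h10 d

/-- groups of subexponential growth act slowly -/
theorem slow_of_growth (L Ω : Type) [Group L] [TopologicalSpace Ω] [MulAction L Ω]
    (h : ∀ S : Set L, S.Finite → ∀ c : ℝ, 1 < c → ∀ k : ℕ, ∃ m ≥ k, ((S ^ m).ncard : ℝ) < c ^ m) :
    SlowAction L Ω := by
  intro S hS c hc k
  obtain ⟨m, hm, h1⟩ := h S hS c hc k
  refine ⟨m, hm, Unit, inferInstance, fun _ => Set.univ, fun _ => isOpen_univ, Set.iUnion_const _, fun _ => ?_⟩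
  refine lt_of_le_of_lt ?_ h1
  exact_mod_cast Set.ncard_image_le (fin_pow hS m)

theorem slow_full_aux {F Γ Ω : Type} [Group F] [Group Γ] [TopologicalSpace Ω]
    [MulAction F Ω] [MulAction Γ Ω] (hcont : ∀ γ : Γ, Continuous fun x : Ω => γ • x)
    {S : Set F} {T : Set Γ}
    (h : ∀ s ∈ S, ∀ x : Ω, ∃ γ ∈ T, ∀ᶠ y in nhds x, s • y = γ • y) (j : ℕ) :
    ∀ g ∈ S ^ j, ∀ x : Ω, ∃ γ ∈ T ^ j, ∀ᶠ y in nhds x, g • y = γ • y := by
  induction j with
  | zero =>
    intro g hg x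
    rw [pow_zero, Set.mem_one] at hg
    refine ⟨1, by rw [pow_zero]; exact Set.mem_one.2 rfl, ?_⟩
    rw [hg]
    exact Filter.Eventually.of_forall fun y => by rw [one_smul, one_smul]
  | succ j ih =>
    intro g hg x
    rw [pow_succ] at hg
    obtain ⟨a, ha, s, hs, rfl⟩ := Set.mem_mul.1 hg
    obtain ⟨γ, hγ, h1⟩ := h s hs x
    obtain ⟨α, hα, h2⟩ := ih a ha (γ • x)
    refine ⟨α * γ, by rw [pow_succ]; exact Set.mul_mem_mul hα hγ, ?_⟩
    have h3 : ∀ᶠ y in nhds x, a • (γ • y) = α • (γ • y) := (hcont γ).continuousAt.eventually h2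
    filter_upwards [h1, h3] with y hy hy'
    rw [mul_smul, mul_smul, hy, hy']

/-- full groups of slow actions on compact spaces are slow -/
theorem slow_full (F Γ Ω : Type) [Group F] [Group Γ] [TopologicalSpace Ω] [CompactSpace Ω]
    [MulAction F Ω] [MulAction Γ Ω] (hcont : ∀ γ : Γ, Continuous fun x : Ω => γ • x)
    (hloc : LocallyIn F Γ Ω) (h : SlowAction Γ Ω) : SlowAction F Ω := by
  classical
  intro S hS c hc k
  -- finitely many elements of `Γ` suffice for each element of `S`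
  have h1 : ∀ g : F, ∃ T : Set Γ, T.Finite ∧ ∀ x : Ω, ∃ γ ∈ T, ∀ᶠ y in nhds x, g • y = γ • y := by
    intro g
    choose γ hγ using hloc g
    obtain ⟨t, ht⟩ := CompactSpace.elim_nhds_subcover (fun x => interior {y | g • y = γ x • y})
      (fun x => interior_mem_nhds.2 (hγ x))
    refine ⟨γ '' t, t.finite_toSet.image _, fun y => ?_⟩
    have hy : y ∈ ⋃ x ∈ t, interior {y | g • y = γ x • y} := by rw [ht]; trivial
    obtain ⟨x, hx, h2⟩ := Set.mem_iUnion₂.1 hy
    exact ⟨γ x, ⟨x, hx, rfl⟩, mem_interior_iff_mem_nhds.1 h2⟩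
  choose T hT hT' using h1
  obtain ⟨m, hm, I, _, U, hUo, hU, hcard⟩ := h (⋃ g ∈ S, T g) (hS.biUnion fun g _ => hT g) c hc k
  refine ⟨m, hm, ?_⟩
  have h2 := slow_full_aux (S := S) (T := ⋃ g ∈ S, T g) hcont (fun s hs x => by
    obtain ⟨γ, hγ, h3⟩ := hT' s x
    exact ⟨γ, Set.mem_iUnion₂.2 ⟨s, hs, hγ⟩, h3⟩) m
  choose! γ hγ hγ' using h2
  have h3 : ∀ x : Ω, ∃ i, x ∈ U i := fun x => by
    have : x ∈ ⋃ i, U i := by rw [hU]; trivial
    exact Set.mem_iUnion.1 this
  choose i hi using h3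
  let V : Ω → Set Ω := fun x => interior ({y | ∀ g ∈ S ^ m, g • y = γ g x • y} ∩ U (i x))
  have hV : ∀ x, V x ∈ nhds x := by
    intro x
    apply interior_mem_nhds.2
    apply Filter.inter_mem _ ((hUo _).mem_nhds (hi x))
    exact (Filter.eventually_all_finite (fin_pow hS m)).2 fun g hg => hγ' g hg x
  obtain ⟨t, ht⟩ := CompactSpace.elim_nhds_subcover V hV
  refine ⟨t, inferInstance, fun x => V x.1, fun x => isOpen_interior, ?_, ?_⟩
  · apply Set.eq_univ_of_forall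
    intro y
    have hy : y ∈ ⋃ x ∈ t, V x := by rw [ht]; trivial
    obtain ⟨x, hx, h4⟩ := Set.mem_iUnion₂.1 hy
    exact Set.mem_iUnion.2 ⟨⟨x, hx⟩, h4⟩
  · rintro ⟨x, hx⟩
    refine lt_of_le_of_lt ?_ (hcard (i x))
    have hsub : ∀ y : V x, (y : Ω) ∈ U (i x) := fun y => (interior_subset y.2).2
    let ρ : (U (i x) → Ω) → (V x → Ω) := fun r y => r ⟨y, hsub y⟩
    have h4 : (fun (g : F) (y : V x) => g • (y : Ω)) '' (S ^ m) ⊆
        ρ '' ((fun (g : Γ) (y : U (i x)) => g • (y : Ω)) '' ((⋃ g ∈ S, T g) ^ m)) := by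
      rintro _ ⟨g, hg, rfl⟩
      refine ⟨_, ⟨γ g x, hγ g hg x, rfl⟩, ?_⟩
      funext y
      exact ((interior_subset y.2).1 g hg).symm
    have h5 : ((fun (g : Γ) (y : U (i x)) => g • (y : Ω)) '' ((⋃ g ∈ S, T g) ^ m)).Finite :=
      (fin_pow (hS.biUnion fun g _ => hT g) m).image _
    exact_mod_cast (Set.ncard_le_ncard h4 (h5.image _)).trans (Set.ncard_image_le h5)

end Run7.h161.CG
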