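import Pool.Agent.Run7.h161.CG.FP
import Pool.Agent.Y812.SS.Wr
import Pool.Agent.Y430.SS.Lf

/-!
# Contracting groups in classes closed under directed colimits
-/

set_option autoImplicit false

namespace Run7.h161.CG

open Pool.Agent.Y462.SS

variable {X Γ : Type} [Group Γ]

/-- the group of the tree automorphisms given by `Γ` is in the class if the elements which act
trivially die -/
theorem closed_quot (C : ∀ (G : Type) [Group G], Prop) (hC : Closed C) [Finite X]
    (ψ : Γ →* Wr X Γ) (hΓ : C Γ) (hd : ∀ γ, Triv ψ γ → Dies ψ γ)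
    (G : Type) [Group G] (f : Γ →* G) (hf : Function.Surjective f)
    (hk : ∀ γ, f γ = 1 ↔ Triv ψ γ) : C G := by
  have h1 : C (Γ ⧸ f.ker) :=
    Pool.Agent.Y331.SS.t_lim Pool.Agent.Y812.SS.t_wr C hC X Γ inferInstance ψ hΓ f.ker (fun γ => by
      rw [MonoidHom.mem_ker, hk]
      exact ⟨hd γ, triv_of_dies⟩)
  let e := QuotientGroup.quotientKerEquivOfSurjective f hf
  exact hC.of_injective G (Γ ⧸ f.ker) e.symm.toMonoidHom e.symm.injective h1

section

variable {G : Type} [Group G] (ψ : G →* Wr X G) (H : Subgroup G)

/-- the elements whose sections at the words of length `n` are in `H` -/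
def Lv : ℕ → Subgroup G
  | 0 => H
  | n + 1 =>
    { carrier := {g | ∀ x, (ψ g).s x ∈ Lv n}
      one_mem' := fun x => by rw [map_one, Wr.one_s]; exact one_mem _
      mul_mem' := fun {a b} ha hb x => by
        rw [map_mul, Wr.mul_s]
        exact mul_mem (ha _) (hb _)
      inv_mem' := fun {a} ha x => by
        rw [map_inv, Wr.inv_s]
        exact inv_mem (ha _) }

theorem mem_Lv_succ (n : ℕ) (g : G) : g ∈ Lv ψ H (n + 1) ↔ ∀ x, (ψ g).s x ∈ Lv ψ H n := Iff.rfl

variable {ψ H}

theorem mem_Lv (n : ℕ) (g : G) (h : ∀ v : List X, v.length = n → sect ψ g v ∈ H) :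
    g ∈ Lv ψ H n := by
  induction n generalizing g with
  | zero =>
    have h1 := h [] rfl
    rwa [sect_nil] at h1
  | succ n ih =>
    rw [mem_Lv_succ]
    intro x
    apply ih
    intro v hv
    have h1 := h (x :: v) (by rw [List.length_cons, hv])
    rwa [sect_cons] at h1

theorem Lv_mono (hH : ∀ h ∈ H, ∀ x, (ψ h).s x ∈ H) (n : ℕ) : Lv ψ H n ≤ Lv ψ H (n + 1) := by
  induction n with
  | zero => exact fun h hh x => hH h hh x
  | succ n ih => exact fun g hg x => ih (hg x)

theorem closed_Lv (C : ∀ (G : Type) [Group G], Prop) (hC : Closed C) [Finite X]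
    (hinj : Function.Injective ψ) (hCH : C H) (n : ℕ) : C (Lv ψ H n) := by
  induction n with
  | zero => exact hCH
  | succ n ih =>
    have h1 : C (Wr X (Lv ψ H n)) := Pool.Agent.Y812.SS.t_wr C hC X _ inferInstance ih
    let φ : Lv ψ H (n + 1) →* Wr X (Lv ψ H n) :=
      { toFun := fun g => ⟨fun x => ⟨(ψ g.1).s x, g.2 x⟩, (ψ g.1).p⟩
        map_one' := by
          apply Wr.ext
          · funext x
            apply Subtype.ext
            change (ψ (1 : G)).s x = 1
            rw [map_one, Wr.one_s]
          · change (ψ (1 : G)).p = 1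
            rw [map_one, Wr.one_p]
        map_mul' := fun a b => by
          apply Wr.ext
          · funext x
            apply Subtype.ext
            change (ψ (a.1 * b.1)).s x = (ψ a.1).s ((ψ b.1).p x) * (ψ b.1).s x
            rw [map_mul, Wr.mul_s]
          · change (ψ (a.1 * b.1)).p = (ψ a.1).p * (ψ b.1).p
            rw [map_mul, Wr.mul_p] }
    refine hC.of_injective _ _ φ ?_ h1
    intro a b hab
    apply Subtype.ext
    apply hinj
    apply Wr.ext
    · funext x
      exact congrArg Subtype.val (congrFun (congrArg Wr.s hab) x)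
    · have h4 := congrArg Wr.p hab
      exact h4

theorem closed_up (C : ∀ (G : Type) [Group G], Prop) (hC : Closed C) [Finite X]
    (hinj : Function.Injective ψ) (hH : ∀ h ∈ H, ∀ x, (ψ h).s x ∈ H)
    (hall : ∀ g : G, ∃ n : ℕ, ∀ v : List X, v.length = n → sect ψ g v ∈ H)
    (hCH : C H) : C G := by
  refine Pool.Agent.Y430.SS.t_union C hC G (Lv ψ H) (monotone_nat_of_le_succ (Lv_mono hH)) ?_
    (closed_Lv C hC hinj hCH)
  intro g
  obtain ⟨n, hn⟩ := hall g
  exact ⟨n, mem_Lv n g hn⟩

theorem faithful_injective (hfaith : ∀ g : G, Triv ψ g → g = 1) : Function.Injective ψ := by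
  rw [injective_iff_map_eq_one]
  intro g hg
  apply hfaith
  intro w
  cases w with
  | nil => rw [act_nil]
  | cons x w => rw [act_cons, hg, Wr.one_p, Wr.one_s, act_one]; rfl

end

/-- a contracting group is in the class if the cover of its nucleus is -/
theorem closed_of_cov (C : ∀ (G : Type) [Group G], Prop) (hC : Closed C) [Finite X]
    {G : Type} [Group G] {ψ : G →* Wr X G} {M : Set G} {k : ℕ} (hM : Nuc ψ M k)
    (hfaith : ∀ g : G, Triv ψ g → g = 1) (hcov : C (Cov M)) : C G := by
  have h1 : C (Subgroup.closure M) := by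
    have hr : ∀ γ : Cov M, pr M γ ∈ Subgroup.closure M := by
      intro γ
      have hγ : γ ∈ Subgroup.closure (Set.range (o : M → Cov M)) := by
        have h := PresentedGroup.closure_range_of (rels M)
        change γ ∈ Subgroup.closure (Set.range (PresentedGroup.of (rels := rels M)))
        rw [h]
        trivial
      have h2 : Subgroup.closure (Set.range (o : M → Cov M)) ≤
          (Subgroup.closure M).comap (pr M) := by
        rw [Subgroup.closure_le]
        rintro _ ⟨m, rfl⟩
        change pr M (o m) ∈ Subgroup.closure M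
        rw [pr_o]
        exact Subgroup.subset_closure m.2
      exact h2 hγ
    refine closed_quot C hC (cψ hM) hcov ?_ (Subgroup.closure M)
      ((pr M).codRestrict _ hr) ?_ ?_
    · intro γ hγ
      exact cov_dies hM (hfaith _ (cov_triv hM hγ))
    · have h2 : Subgroup.closure M ≤ (pr M).range := by
        rw [Subgroup.closure_le]
        intro m hm
        exact ⟨o ⟨m, hm⟩, pr_o _⟩
      rintro ⟨g, hg⟩
      obtain ⟨γ, hγ⟩ := h2 hg
      exact ⟨γ, Subtype.ext hγ⟩
    · intro γ
      constructor
      · intro h w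
        have h2 : pr M γ = 1 := congrArg Subtype.val h
        rw [pr_act, h2, act_one]
      · intro h
        exact Subtype.ext (hfaith _ (cov_triv hM h))
  refine closed_up C hC (faithful_injective hfaith) (H := Subgroup.closure M) ?_ ?_ h1
  · intro h hh
    have h2 : Subgroup.closure M ≤ Lv ψ (Subgroup.closure M) 1 := by
      rw [Subgroup.closure_le]
      intro m hm x
      exact Subgroup.subset_closure (mem_s hM ⟨m, hm⟩ x)
    exact fun x => h2 hh x
  · intro g
    obtain ⟨n, hn⟩ := hM.all g
    exact ⟨n, fun v hv => Subgroup.subset_closure (hn v hv.ge)⟩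

end Run7.h161.CG
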