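import Pool.Agent.Y462.SS.Base

/-!
# Contracting recursions: definitions

A recursion is a homomorphism `ψ : Γ →* Wr X Γ` of a group `Γ` to its wreath product with the
permutations of the alphabet `X`; it defines an action `act ψ` of `Γ` on the words over `X`.
-/

set_option autoImplicit false

namespace Run7.h161.CG

open Pool.Agent.Y462.SS

/-- the section of `γ` at the word `v` -/
def sect {X Γ : Type} [Group Γ] (ψ : Γ →* Wr X Γ) : Γ → List X → Γ
  | γ, [] => γ
  | γ, x :: v => sect ψ ((ψ γ).s x) v

/-- the recursion `ψ` is contracting: for some finite set `N`, all but finitely many sections of each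
element are in `N` -/
def Contracting {X Γ : Type} [Group Γ] (ψ : Γ →* Wr X Γ) : Prop :=
  ∃ N : Set Γ, N.Finite ∧ ∀ γ : Γ, ∃ n : ℕ, ∀ v : List X, n ≤ v.length → sect ψ γ v ∈ N

/-- `γ` acts trivially on the words over `X` -/
def Triv {X Γ : Type} [Group Γ] (ψ : Γ →* Wr X Γ) (γ : Γ) : Prop := ∀ w : List X, act ψ γ w = w

/-- `G` is a contracting group: it has a contracting recursion (over a finite alphabet) and acts
faithfully on the words -/
def ContractingGroup (G : Type) [Group G] : Prop :=
  ∃ (X : Type) (_ : Finite X) (ψ : G →* Wr X G), Contracting ψ ∧ ∀ g : G, Triv ψ g → g = 1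

end Run7.h161.CG
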