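import Pool.Agent.Run7.h161.CG.Die
import Pool.Agent.Y331.SS.Lim

/-!
# The finitely presented cover of a contracting group
-/

set_option autoImplicit false

namespace Run7.h161.CG

open Pool.Agent.Y462.SS
open Pool.Agent.Y331.SS (wmap wmap_s wmap_p)

section

variable {X G : Type} [Group G] {ψ : G →* Wr X G} {M : Set G} {k : ℕ} (hM : Nuc ψ M k)

/-- the relations `a b = c` in the set `M` -/
def rels (M : Set G) : Set (FreeGroup M) :=
  {r | ∃ a b c : M, (a : G) * b = c ∧
    r = FreeGroup.of a * FreeGroup.of b * (FreeGroup.of c)⁻¹}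

/-- the group generated by `M` with all the relations of length three -/
abbrev Cov (M : Set G) : Type := PresentedGroup (rels M)

theorem cov_fp (hfin : M.Finite) : Group.IsFinitelyPresented (Cov M) := by
  have h1 : Finite M := hfin
  have h2 : Finite (rels M) := by
    have h3 : rels M ⊆ Set.range (fun t : M × M × M =>
        FreeGroup.of t.1 * FreeGroup.of t.2.1 * (FreeGroup.of t.2.2)⁻¹) := by
      rintro r ⟨a, b, c, -, rfl⟩
      exact ⟨(a, b, c), rfl⟩
    exact (Set.finite_range _).subset h3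
  infer_instance

/-- the generators -/
def o (m : M) : Cov M := PresentedGroup.of m

theorem o_mul {a b c : M} (h : (a : G) * b = c) : o a * o b = o c := by
  have h1 : PresentedGroup.mk (rels M)
      (FreeGroup.of a * FreeGroup.of b * (FreeGroup.of c)⁻¹) = 1 :=
    PresentedGroup.one_of_mem ⟨a, b, c, h, rfl⟩
  rw [map_mul, map_mul, map_inv, mul_inv_eq_one] at h1
  exact h1

include hM

theorem o_one : o (⟨1, hM.one⟩ : M) = 1 := by
  have h := o_mul (a := (⟨1, hM.one⟩ : M)) (b := ⟨1, hM.one⟩) (c := ⟨1, hM.one⟩) (one_mul 1)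
  exact mul_eq_left.1 h

theorem o_inv (m : M) : o (⟨(m : G)⁻¹, hM.inv m m.2⟩ : M) = (o m)⁻¹ := by
  have h := o_mul (a := m) (b := (⟨(m : G)⁻¹, hM.inv m m.2⟩ : M)) (c := ⟨1, hM.one⟩)
    (mul_inv_cancel (m : G))
  rw [o_one hM] at h
  exact (inv_eq_of_mul_eq_one_right h).symm

theorem mem_s (m : M) (x : X) : (ψ m).s x ∈ M := by
  have h := hM.sec m m.2 [x]
  rwa [sect_cons, sect_nil] at h

/-- the value of the recursion on a generator -/
def gen (m : M) : Wr X (Cov M) := ⟨fun x => o ⟨(ψ m).s x, mem_s hM m x⟩, (ψ m).p⟩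

theorem gen_rel (r : FreeGroup M) (hr : r ∈ rels M) : FreeGroup.lift (gen hM) r = 1 := by
  obtain ⟨a, b, c, h, rfl⟩ := hr
  rw [map_mul, map_mul, map_inv, FreeGroup.lift_apply_of, FreeGroup.lift_apply_of,
    FreeGroup.lift_apply_of, mul_inv_eq_one]
  apply Wr.ext
  · funext x
    rw [Wr.mul_s]
    apply o_mul
    change (ψ a).s ((ψ b).p x) * (ψ b).s x = (ψ c).s x
    rw [← h, map_mul, Wr.mul_s]
  · change (ψ a).p * (ψ b).p = (ψ c).p
    rw [← h, map_mul, Wr.mul_p]

/-- the recursion on the cover -/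
def cψ : Cov M →* Wr X (Cov M) := PresentedGroup.toGroup (gen_rel hM)

theorem cψ_o (m : M) : cψ hM (o m) = gen hM m := PresentedGroup.toGroup.of _

omit hM in
theorem pr_rel (r : FreeGroup M) (hr : r ∈ rels M) :
    FreeGroup.lift (fun m : M => (m : G)) r = 1 := by
  obtain ⟨a, b, c, h, rfl⟩ := hr
  rw [map_mul, map_mul, map_inv, FreeGroup.lift_apply_of, FreeGroup.lift_apply_of,
    FreeGroup.lift_apply_of, mul_inv_eq_one]
  exact h

omit hM in
/-- the projection of the cover -/
def pr (M : Set G) : Cov M →* G := PresentedGroup.toGroup (pr_rel (M := M))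

omit hM in
theorem pr_o (m : M) : pr M (o m) = m := PresentedGroup.toGroup.of _

theorem pr_compat : (wmap (pr M)).comp (cψ hM) = ψ.comp (pr M) := by
  apply PresentedGroup.ext
  intro m
  change wmap (pr M) (cψ hM (o m)) = ψ (pr M (o m))
  rw [cψ_o, pr_o]
  apply Wr.ext
  · funext x
    rw [wmap_s]
    exact pr_o _
  · rfl

theorem pr_s (γ : Cov M) (x : X) : pr M ((cψ hM γ).s x) = (ψ (pr M γ)).s x :=
  congrFun (congrArg Wr.s (DFunLike.congr_fun (pr_compat hM) γ)) x

theorem pr_p (γ : Cov M) : (cψ hM γ).p = (ψ (pr M γ)).p :=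
  congrArg Wr.p (DFunLike.congr_fun (pr_compat hM) γ)

theorem pr_sect (γ : Cov M) (v : List X) : pr M (sect (cψ hM) γ v) = sect ψ (pr M γ) v := by
  induction v generalizing γ with
  | nil => rw [sect_nil, sect_nil]
  | cons x v ih => rw [sect_cons, sect_cons, ih, pr_s]

theorem pr_act (γ : Cov M) (v : List X) : act (cψ hM) γ v = act ψ (pr M γ) v := by
  induction v generalizing γ with
  | nil => rw [act_nil, act_nil]
  | cons x v ih => rw [act_cons, act_cons, ih, pr_s, pr_p]

theorem sect_o (m : M) (v : List X) :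
    sect (cψ hM) (o m) v = o ⟨sect ψ m v, hM.sec m m.2 v⟩ := by
  induction v generalizing m with
  | nil => simp only [sect_nil]
  | cons x v ih =>
    simp only [sect_cons]
    rw [cψ_o]
    exact ih _

theorem act_o (m : M) (v : List X) : act (cψ hM) (o m) v = act ψ m v := by
  rw [pr_act, pr_o]

theorem cov_contr (γ : Cov M) :
    ∃ n : ℕ, ∀ v : List X, n ≤ v.length → ∃ m : M, sect (cψ hM) γ v = o m := by
  have hγ : γ ∈ Subgroup.closure (Set.range (o : M → Cov M)) := by
    have h := PresentedGroup.closure_range_of (rels M)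
    change γ ∈ Subgroup.closure (Set.range (PresentedGroup.of (rels := rels M)))
    rw [h]
    trivial
  induction hγ using Subgroup.closure_induction with
  | mem γ hγ =>
    obtain ⟨m, rfl⟩ := hγ
    exact ⟨0, fun v _ => ⟨_, sect_o hM m v⟩⟩
  | one => exact ⟨0, fun v _ => ⟨⟨1, hM.one⟩, by rw [sect_one, o_one hM]⟩⟩
  | mul γ δ _ _ ihγ ihδ =>
    obtain ⟨a, ha⟩ := ihγ
    obtain ⟨b, hb⟩ := ihδ
    refine ⟨max a b + k, fun v hv => ?_⟩
    have hv1 : (v.take (max a b)).length = max a b := by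
      rw [List.length_take]
      omega
    have hv2 : k ≤ (v.drop (max a b)).length := by
      rw [List.length_drop]
      omega
    have e : v = v.take (max a b) ++ v.drop (max a b) := (List.take_append_drop _ _).symm
    obtain ⟨m, hm⟩ := ha (act (cψ hM) δ (v.take (max a b)))
      (by rw [act_length, hv1]; exact le_max_left _ _)
    obtain ⟨m', hm'⟩ := hb (v.take (max a b)) (by rw [hv1]; exact le_max_right _ _)
    have h1 : sect ψ ((m : G) * m') (v.drop (max a b)) ∈ M := hM.mul m m.2 m' m'.2 _ hv2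
    have h2 : sect (cψ hM) (γ * δ) v =
        sect (cψ hM) (sect (cψ hM) (γ * δ) (v.take (max a b))) (v.drop (max a b)) := by
      rw [← sect_append, ← e]
    refine ⟨⟨_, h1⟩, ?_⟩
    rw [h2, sect_mul, hm, hm', sect_mul, sect_o, sect_o, act_o]
    apply o_mul
    exact (sect_mul ψ (m : G) (m' : G) _).symm
  | inv γ _ ih =>
    obtain ⟨a, ha⟩ := ih
    refine ⟨a, fun v hv => ?_⟩
    obtain ⟨m, hm⟩ := ha (act (cψ hM) γ⁻¹ v) (by rw [act_length]; exact hv)
    exact ⟨⟨(m : G)⁻¹, hM.inv m m.2⟩, by rw [sect_inv, hm, o_inv hM]⟩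

theorem cov_contracting (hfin : M.Finite) : Contracting (cψ hM) := by
  have h1 : Finite M := hfin
  refine ⟨Set.range (o : M → Cov M), Set.finite_range _, fun γ => ?_⟩
  obtain ⟨n, hn⟩ := cov_contr hM γ
  refine ⟨n, fun v hv => ?_⟩
  obtain ⟨m, hm⟩ := hn v hv
  exact ⟨m, hm.symm⟩

theorem cov_triv {γ : Cov M} (h : Triv (cψ hM) γ) : Triv ψ (pr M γ) := by
  intro w
  rw [← pr_act hM]
  exact h w

/-- the elements of the cover in the kernel of the projection die -/
theorem cov_dies {γ : Cov M} (h : pr M γ = 1) : Dies (cψ hM) γ := by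
  obtain ⟨n, hn⟩ := cov_contr hM γ
  have ht : Triv (cψ hM) γ := by
    intro w
    rw [pr_act hM, h, act_one]
  refine dies_of_prefix n γ ht fun v hv => ⟨v, List.prefix_refl v, ?_⟩
  obtain ⟨m, hm⟩ := hn v hv.ge
  have h1 : (m : G) = 1 := by
    rw [← pr_o m, ← hm, pr_sect, h, sect_one]
  have h2 : m = ⟨1, hM.one⟩ := Subtype.ext h1
  rw [hm, h2, o_one hM]
  exact Dies.one

end

end Run7.h161.CG
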