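import Mathlib

/-!
# Slow actions: definitions
-/

set_option autoImplicit false

namespace Run7.h161.CG

open scoped Pointwise

/-- The action of the group `L` on the space `Ω` is slow: for every finite subset `S` of `L` and every
`c > 1` there are arbitrarily large `m` and finite open covers `U` of `Ω` such that the products of `m`
elements of `S` have fewer than `c ^ m` different restrictions to each set `U i`. -/
def SlowAction (L Ω : Type) [Group L] [TopologicalSpace Ω] [MulAction L Ω] : Prop :=
  ∀ S : Set L, S.Finite → ∀ c : ℝ, 1 < c → ∀ k : ℕ, ∃ m ≥ k, ∃ (I : Type) (_ : Finite I)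
    (U : I → Set Ω), (∀ i, IsOpen (U i)) ∧ (⋃ i, U i) = Set.univ ∧
    ∀ i, (((fun (g : L) (x : U i) => g • (x : Ω)) '' (S ^ m)).ncard : ℝ) < c ^ m

/-- every element of `F` acts locally, near every point of `Ω`, as an element of `Γ` -/
def LocallyIn (F Γ Ω : Type) [Group F] [Group Γ] [TopologicalSpace Ω] [MulAction F Ω]
    [MulAction Γ Ω] : Prop :=
  ∀ (g : F) (x : Ω), ∃ γ : Γ, ∀ᶠ y in nhds x, g • y = γ • y

/-- `L` has a faithful slow action -/
def SlowGroup (L : Type) [Group L] : Prop :=
  ∃ (Ω : Type) (_ : TopologicalSpace Ω) (_ : MulAction L Ω), SlowAction L Ω ∧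
    ∀ g : L, (∀ x : Ω, g • x = x) → g = 1

end Run7.h161.CG
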